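import Pool.Agent.H93.Nh5

namespace Pool.Agent.Results.MP_14d743_an.Yes

/-- On a reflexive complex Banach space, an operator that is not power bounded and has no
eigenvalue has a dense numerical orbit. -/
theorem result (X : Type*) [NormedAddCommGroup X] [NormedSpace ℂ X] [CompleteSpace X]
    (hrefl : Function.Surjective (NormedSpace.inclusionInDoubleDual ℂ X))
    (T : X →L[ℂ] X) (hpb : ¬ BddAbove (Set.range fun n : ℕ => ‖T ^ n‖))
    (hev : ∀ (l : ℂ) (x : X), T x = l • x → x = 0) :
    ∃ (x : X) (f : StrongDual ℂ X), Dense (Set.range fun n : ℕ => f ((T ^ n) x)) := by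
  refine H93.Nh.main (fun φ => ?_) T hpb hev
  obtain ⟨x, rfl⟩ := hrefl φ
  exact ⟨x, fun g => rfl⟩

end Pool.Agent.Results.MP_14d743_an.Yes
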